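import Pool.Agent.H.MP_0e6b5f_nt.Dom.Enum
import Pool.Agent.H.MP_0e6b5f_nt.Dom.DetMain

/-!
# Interpolation determinants of families with the same leading forms
-/

namespace Pool.Agent.H.MP_0e6b5f_nt.Cap

open Pool.Agent.H.MP_0e6b5f_nt.Dom
open Polynomial Submodule

variable {K : Type*} [Field K]

/-- A family which is triangular with respect to another family (not necessarily independent). -/
theorem det_tri_any {n : ℕ} (a ψ : Fin n → (Fin n → K)) (c : Fin n → K)
    (h : ∀ k, ψ k - c k • a k ∈ span K (a '' {l | l < k})) :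
    (Matrix.of ψ).det = (∏ k, c k) * (Matrix.of a).det := by
  classical
  have h1 : ∀ k, ∃ l : Fin n →₀ K, l ∈ Finsupp.supported K K {l : Fin n | l < k} ∧
      Finsupp.linearCombination K a l = ψ k - c k • a k := fun k =>
    (Finsupp.mem_span_image_iff_linearCombination K).mp (h k)
  choose l hl hla using h1
  set T : Matrix (Fin n) (Fin n) K := Matrix.of (fun k j => (if j = k then c k else 0) + l k j)
    with hT
  have hzero : ∀ k j, ¬ j < k → l k j = 0 := by
    intro k j hjk
    by_contra hcon
    exact hjk ((Finsupp.mem_supported K (l k)).mp (hl k) (Finsupp.mem_support_iff.mpr hcon))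
  have hmul : Matrix.of ψ = T * Matrix.of a := by
    ext k P
    rw [Matrix.mul_apply]
    have h2 : ψ k = c k • a k + Finsupp.linearCombination K a (l k) := by rw [hla]; abel
    have h3 : ψ k P = c k * a k P + ∑ j, l k j * a j P := by
      conv_lhs => rw [h2]
      rw [Finsupp.linearCombination_apply, Finsupp.sum_fintype _ _ (fun i => by simp)]
      simp [Finset.sum_apply]
    simp only [Matrix.of_apply, hT]
    rw [h3]
    simp only [add_mul, Finset.sum_add_distrib, ite_mul, zero_mul, Finset.sum_ite_eq',
      Finset.mem_univ, if_true]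
  have hlow : T.IsLowerTriangular := by
    intro k j hkj
    have hkj' : k < j := hkj
    simp only [hT, Matrix.of_apply]
    rw [if_neg hkj'.ne', hzero k j (not_lt.mpr hkj'.le), add_zero]
  rw [hmul, Matrix.det_mul, Matrix.det_of_isLowerTriangular T hlow]
  congr 1
  refine Finset.prod_congr rfl (fun k _ => ?_)
  simp only [hT, Matrix.of_apply]
  rw [if_true, hzero k k (lt_irrefl k), add_zero]

/-- The monomials in the order of the enumeration, as functions on the points. -/
def mon {N : ℕ} (X Y : Fin N → K) : Fin N → (Fin N → K) :=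
  fun t => X ^ (enum t).1 * Y ^ (enum t).2

/-- The determinant of a family with given leading forms. -/
theorem det_mon {N : ℕ} (X Y : Fin N → K) (ψ : Fin N → (Fin N → K)) (c : Fin N → K)
    (h : ∀ t : Fin N, IsTop K X Y (edeg t) (ψ t) (c t • (X ^ (enum t).1 * Y ^ (enum t).2))) :
    (Matrix.of ψ).det = (∏ t, c t) * (Matrix.of (mon X Y)).det := by
  apply det_tri_any
  intro t
  have h1 := (h t).1
  have h2 : W K X Y (edeg t) ≤ span K (mon X Y '' {l | l < t}) := by
    rw [W]
    apply span_mono
    rintro _ ⟨i, j, hij, rfl⟩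
    obtain ⟨t', ht', he⟩ := exists_enum hij
    refine ⟨⟨t', ht'.trans t.2⟩, ht', ?_⟩
    simp only [mon, he]
  exact h2 h1

/-- Comparison of the determinants of two families. -/
theorem det_cmp {N : ℕ} (X Y : Fin N → K) (p q : Fin N → (Fin N → K)) (a b : Fin N → K)
    (hp : ∀ t : Fin N, IsTop K X Y (edeg t) (p t) (a t • (X ^ (enum t).1 * Y ^ (enum t).2)))
    (hq : ∀ t : Fin N, IsTop K X Y (edeg t) (q t) (b t • (X ^ (enum t).1 * Y ^ (enum t).2))) :
    (∏ t, b t) * (Matrix.of p).det = (∏ t, a t) * (Matrix.of q).det := by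
  rw [det_mon X Y p a hp, det_mon X Y q b hq]
  ring

/-- The power basis adapted to a monic polynomial: `g ^ (q / m) * X ^ (q % m)`. -/
noncomputable def gpow (g : K[X]) (m q : ℕ) : K[X] := g ^ (q / m) * X ^ (q % m)

theorem gpow_monic {g : K[X]} (hg : g.Monic) (m q : ℕ) : (gpow g m q).Monic :=
  (hg.pow _).mul (monic_X_pow _)

theorem gpow_natDegree {g : K[X]} (hg : g.Monic) {m : ℕ} (hm : g.natDegree = m) (q : ℕ) :
    (gpow g m q).natDegree = q := by
  rw [gpow, (hg.pow _).natDegree_mul (monic_X_pow _), hg.natDegree_pow, hm, natDegree_X_pow]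
  exact Nat.div_add_mod' q m

end Pool.Agent.H.MP_0e6b5f_nt.Cap
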