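import Pool.Agent.H.MP_0e6b5f_nt.Dom.Glob

/-!
# The product formula with improved bounds at finitely many nonarchimedean places
-/

namespace Pool.Agent.H.MP_0e6b5f_nt.Cap

open Pool.Agent.H.MP_0e6b5f_nt.Dom
open Height Height.AdmissibleAbsValues Function

variable {K : Type*} [Field K] [AdmissibleAbsValues K]

/-- The product formula together with local upper bounds, improved by the factors `G v` at the
nonarchimedean places `v` in `V`. -/
theorem global_multi (g : K) (hg : g ≠ 0) (V : Finset (nonarchAbsVal (K := K)))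
    (ba bn : AbsoluteValue K ℝ → ℝ) (G : nonarchAbsVal (K := K) → ℝ)
    (ha : ∀ v ∈ archAbsVal (K := K), v g ≤ ba v)
    (hn : ∀ v : nonarchAbsVal (K := K), v ∉ V → v.val g ≤ bn v.val)
    (hV : ∀ v ∈ V, v.val g ≤ G v * bn v.val)
    (hfin : (fun v : nonarchAbsVal (K := K) => bn v.val).HasFiniteMulSupport) :
    1 ≤ (∏ v ∈ V, G v) *
      ((archAbsVal.map ba).prod * ∏ᶠ v : nonarchAbsVal (K := K), bn v.val) := by
  classical
  rw [← product_formula hg]
  have hfg : (fun v : nonarchAbsVal (K := K) => v.val g).HasFiniteMulSupport :=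
    hasFiniteMulSupport hg
  have hA : (archAbsVal.map (fun v : AbsoluteValue K ℝ => v g)).prod ≤ (archAbsVal.map ba).prod :=
    Multiset.prod_map_le_prod_map₀ _ _ (fun v _ => v.nonneg g) ha
  have hN0 : 0 ≤ ∏ᶠ v : nonarchAbsVal (K := K), v.val g :=
    finprod_nonneg (fun v => v.val.nonneg g)
  have hbA0 : 0 ≤ (archAbsVal.map ba).prod := Multiset.prod_nonneg (by
      intro a ha'
      obtain ⟨v, hv, rfl⟩ := Multiset.mem_map.mp ha'
      exact (v.nonneg g).trans (ha v hv))
  have hsub : (mulSupport fun v : nonarchAbsVal (K := K) => if v ∈ V then G v else 1) ⊆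
      (V : Set (nonarchAbsVal (K := K))) := by
    intro v hv
    by_contra hcon
    exact hv (if_neg fun h => hcon (Finset.mem_coe.2 h))
  have hite : (fun v : nonarchAbsVal (K := K) => if v ∈ V then G v else 1).HasFiniteMulSupport :=
    V.finite_toSet.subset hsub
  have h1 : (∏ᶠ v : nonarchAbsVal (K := K), v.val g) ≤
      ∏ᶠ v : nonarchAbsVal (K := K), ((if v ∈ V then G v else 1) * bn v.val) := by
    refine finprod_le_finprod hfg (fun v => v.val.nonneg g) (hite.fun_mul hfin) (fun v => ?_)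
    show v.val g ≤ (if v ∈ V then G v else 1) * bn v.val
    split_ifs with h
    · exact hV v h
    · rw [one_mul]; exact hn v h
  rw [finprod_mul_distrib hite hfin, finprod_eq_prod_of_mulSupport_subset _ hsub,
    Finset.prod_congr rfl fun v hv => if_pos hv] at h1
  calc (archAbsVal.map (fun v : AbsoluteValue K ℝ => v g)).prod *
        ∏ᶠ v : nonarchAbsVal (K := K), v.val g
      ≤ (archAbsVal.map ba).prod *
          ((∏ v ∈ V, G v) * ∏ᶠ v : nonarchAbsVal (K := K), bn v.val) :=
        mul_le_mul hA h1 hN0 hbA0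
    _ = (∏ v ∈ V, G v) *
          ((archAbsVal.map ba).prod * ∏ᶠ v : nonarchAbsVal (K := K), bn v.val) := by ring

/-- The same with a finite set of absolute values. -/
theorem global_multi' (g : K) (hg : g ≠ 0) (V : Finset (AbsoluteValue K ℝ))
    (hVn : ∀ v ∈ V, v ∈ nonarchAbsVal (K := K))
    (ba bn : AbsoluteValue K ℝ → ℝ) (G : AbsoluteValue K ℝ → ℝ)
    (ha : ∀ v ∈ archAbsVal (K := K), v g ≤ ba v)
    (hn : ∀ v ∈ nonarchAbsVal (K := K), v ∉ V → v g ≤ bn v)
    (hV : ∀ v ∈ V, v g ≤ G v * bn v)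
    (hfin : (fun v : nonarchAbsVal (K := K) => bn v.val).HasFiniteMulSupport) :
    1 ≤ (∏ v ∈ V, G v) *
      ((archAbsVal.map ba).prod * ∏ᶠ v : nonarchAbsVal (K := K), bn v.val) := by
  classical
  have h := global_multi g hg (V.subtype (· ∈ nonarchAbsVal (K := K))) ba bn (fun v => G v.val) ha
    (fun v hv => hn v.val v.property fun h => hv (Finset.mem_subtype.2 h))
    (fun v hv => hV v.val (Finset.mem_subtype.1 hv)) hfin
  have h2 : ∏ v ∈ V.subtype (· ∈ nonarchAbsVal (K := K)), G v.val = ∏ v ∈ V, G v := by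
    rw [Finset.prod_subtype_eq_prod_filter (s := V) (f := G),
      Finset.filter_true_of_mem hVn]
  rwa [h2] at h

end Pool.Agent.H.MP_0e6b5f_nt.Cap
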