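import Pool.Agent.H.MP_0e6b5f_nt.Cap.Loc
import Pool.Agent.H.MP_0e6b5f_nt.Cap.Multi
import Pool.Agent.H.MP_0e6b5f_nt.Eng.GlobRel

/-!
# The product formula with a gain at several places
-/

namespace Pool.Agent.H.MP_0e6b5f_nt.Cap

open Pool.Agent.H.MP_0e6b5f_nt.Dom Pool.Agent.H.MP_0e6b5f_nt.Eng
open Polynomial
open Height Height.AdmissibleAbsValues Function

variable {K : Type*} [Field K]

variable [AdmissibleAbsValues K]

/-- The product formula for the determinant of dynamical monomials, with the gains. -/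
theorem glob_gain {d : ℕ} (hd : 2 ≤ d) {ζ : Fin d → K} {i₀ : Fin d} (hi₀ : ζ i₀ = 0) {δ μ : K}
    (hδ : δ ≠ 0) (hμ : μ ^ (d - 1) = δ) {ι : Type*} [Finite ι] (O : Orb ζ δ ι) (L : ℕ) {N : ℕ}
    (p : Fin N → ι) (hL : ∀ t : Fin N, (enum t).1 < d ^ L ∧ (enum t).2 < d ^ L)
    (V : Finset (nonarchAbsVal (K := K))) (θ : nonarchAbsVal (K := K) → ℝ)
    (g : nonarchAbsVal (K := K) → K[X]) (hg : ∀ v ∈ V, (g v).Monic) {m : ℕ}
    (hm : ∀ v ∈ V, (g v).natDegree = m) (hm1 : 1 ≤ m) (hmd : m ≤ d) {S : ℕ}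
    (hS1 : S ≤ ∑ t : Fin N, (enum t).1 / m) (hS2 : S ≤ ∑ t : Fin N, (enum t).2 / m)
    (hθ0 : ∀ v ∈ V, 0 ≤ θ v) (hθ1 : ∀ v ∈ V, θ v ≤ 1)
    (hgv : ∀ v ∈ V, ∀ P, v.val ((g v).eval (O.y P)) ≤ (max 1 (v.val μ)) ^ m * θ v)
    (hdet : deteE O L p ≠ 0) :
    1 ≤ (∏ v ∈ V, θ v) ^ S *
      (((N.factorial : ℝ) * 2 ^ ((d + 3) * ((2 * (d - 1) * L + d) * N))) ^ totalWeight K *
        (mulHeight (tup ζ) * mulHeight₁ δ) ^ ((2 * (d - 1) * L + d) * N)) := by
  classical
  set T' := (2 * (d - 1) * L + d) * N with hT'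
  have hζ : ∀ (v : AbsoluteValue K ℝ) i, v (ζ i) ≤ loc ζ v * max (v δ) 1 := by
    intro v i
    have h1 := le_loc ζ v i i₀
    rw [hi₀, sub_zero] at h1
    have h2 : 1 ≤ max (v δ) 1 := le_max_right _ _
    have h3 := one_le_loc ζ v
    nlinarith
  have hδv : ∀ v : AbsoluteValue K ℝ, v δ ≤ loc ζ v * max (v δ) 1 := by
    intro v
    have h1 : v δ ≤ max (v δ) 1 := le_max_left _ _
    have h2 : 1 ≤ max (v δ) 1 := le_max_right _ _
    have h3 := one_le_loc ζ v
    nlinarith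
  have hB : ∀ v : AbsoluteValue K ℝ, 1 ≤ loc ζ v * max (v δ) 1 := by
    intro v
    have h2 : 1 ≤ max (v δ) 1 := le_max_right _ _
    have h3 := one_le_loc ζ v
    nlinarith
  have hMa : ∀ v : AbsoluteValue K ℝ, (1 : ℝ) ≤ 2 ^ (d + 3) * (loc ζ v * max (v δ) 1) := by
    intro v
    have h1 : (1 : ℝ) ≤ 2 ^ (d + 3) := one_le_pow₀ (by norm_num)
    have h2 := hB v
    nlinarith
  have hprod : ∀ M : ℝ, 1 ≤ M → ∏ _k : Fin N, M ^ (2 * (d - 1) * L) ≤ M ^ T' := by
    intro M hM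
    rw [Finset.prod_const, Finset.card_univ, Fintype.card_fin, ← pow_mul]
    exact pow_le_pow_right₀ hM (Nat.mul_le_mul_right _ (Nat.le_add_right _ _))
  have hsize : ∀ v : nonarchAbsVal (K := K), ∀ P, v.val (O.y P) ≤ loc ζ v.val * max (v.val δ) 1 := by
    intro v P
    have := O.size hd (QU.of_nonarch (isNonarchimedean v.val v.property)) le_rfl (hB v.val)
      (hζ v.val) (hδv v.val) P
    rwa [one_pow, one_mul] at this
  rw [← bounds_prod ζ hδ (N.factorial : ℝ) 0 T' (d + 3), ← Finset.prod_pow]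
  apply global_multi (deteE O L p) hdet V (fun v => (N.factorial : ℝ) *
    (v δ ^ 0 * (2 ^ (d + 3) * (loc ζ v * max (v δ) 1)) ^ T'))
    (fun v => v δ ^ 0 * (loc ζ v * max (v δ) 1) ^ T') (fun v => θ v ^ S)
  · intro v _
    have h1 := det_le_arch v (Matrix.of (fun (t : Fin N) (j : Fin N) => ee O L (enum t) (p j)))
      (fun _ => (2 ^ (d + 3) * (loc ζ v * max (v δ) 1)) ^ (2 * (d - 1) * L))
      (fun i j => ee_le hd O v (hMa v)
        (O.size hd (QU.of_two v) (by norm_num) (hB v) (hζ v) (hδv v)) L (enum i) (p j))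
    rw [pow_zero, one_mul]
    exact h1.trans (mul_le_mul_of_nonneg_left (hprod _ (hMa v)) (Nat.cast_nonneg _))
  · intro v _
    have hna := isNonarchimedean v.val v.property
    have h1 := det_le_nonarch v.val hna
      (Matrix.of (fun (t : Fin N) (j : Fin N) => ee O L (enum t) (p j)))
      (fun _ => (loc ζ v.val * max (v.val δ) 1) ^ (2 * (d - 1) * L))
      (fun i j => ee_le hd O v.val (hB v.val) (hsize v) L (enum i) (p j))
    rw [pow_zero, one_mul]
    exact h1.trans (hprod _ (hB v.val))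
  · intro v hv
    have hna := isNonarchimedean v.val v.property
    have hM0 : 0 ≤ (loc ζ v.val * max (v.val δ) 1) ^ T' := pow_nonneg (by linarith [hB v.val]) _
    rw [pow_zero, one_mul, mul_comm]
    rcases le_total (v.val μ) 1 with h1 | h1
    · have h2 := loc_y hd hδ O L p hL v.val hna (hB v.val) (hsize v) (g v) (hg v hv) (hm v hv)
        hm1 hmd (θ := θ v) (fun P => by
          have := hgv v hv P
          rwa [max_eq_left h1, one_pow, one_mul] at this)
      exact h2.trans (mul_le_mul_of_nonneg_left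
        (pow_le_pow_of_le_one (hθ0 v hv) (hθ1 v hv) hS2) hM0)
    · have hμM : v.val μ ≤ loc ζ v.val * max (v.val δ) 1 := by
        have h2 : v.val μ ≤ v.val δ := by
          rw [← hμ, map_pow]
          exact le_self_pow₀ h1 (by omega)
        exact h2.trans (hδv v.val)
      have h2 := loc_x hd hδ hμ O L p hL v.val hna h1 hμM (hsize v) (g v) (hg v hv) (hm v hv)
        hm1 hmd (hθ0 v hv) (fun P => by
          have := hgv v hv P
          rwa [max_eq_right h1] at this)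
      exact h2.trans (mul_le_mul_of_nonneg_left
        (pow_le_pow_of_le_one (hθ0 v hv) (hθ1 v hv) hS1) hM0)
  · have hδf : (fun v : nonarchAbsVal (K := K) => v.val δ).HasFiniteMulSupport :=
      hasFiniteMulSupport hδ
    exact (hδf.fun_pow 0).fun_mul (((loc_fin ζ).fun_mul (max_fin δ)).fun_pow T')

end Pool.Agent.H.MP_0e6b5f_nt.Cap
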