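import Pool.Agent.H.MP_0e6b5f_nt.Cap.DetCmp
import Pool.Agent.H.MP_0e6b5f_nt.Eng.Defs

/-!
# The interpolation determinant at a place where a monic polynomial is small on the orbit
-/

namespace Pool.Agent.H.MP_0e6b5f_nt.Cap

open Pool.Agent.H.MP_0e6b5f_nt.Dom Pool.Agent.H.MP_0e6b5f_nt.Eng
open Polynomial Submodule

variable {K : Type*} [Field K]

/-- Leading forms of the forward iterates on a family of points. -/
theorem top_u {d : ℕ} (hd : 2 ≤ d) {ζ : Fin d → K} {δ : K} {ι : Type*} (O : Orb ζ δ ι) {N : ℕ}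
    (p : Fin N → ι) (k : ℕ) :
    IsTop K (fun j => O.y (O.σ⁻¹ (p j))) (fun j => O.y (p j)) (d ^ k)
      (fun j => O.y ((O.σ ^ k) (p j))) ((1 : K) ^ gexp d k • (fun j => O.y (p j)) ^ (d ^ k)) := by
  obtain ⟨hmon, hdeg⟩ := nf_monic hd ζ δ
  set X : Fin N → K := fun j => O.y (O.σ⁻¹ (p j)) with hX
  set Y : Fin N → K := fun j => O.y (p j) with hY
  set u : ℕ → (Fin N → K) := fun k j => O.y ((O.σ ^ k) (p j)) with hu
  have h0 : u 0 = Y := by funext j; simp [hu, hY]
  have := top_iter (K := K) (x := X) (y := Y) hd hmon hdeg 1 δ u X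
    (by rw [h0]; exact y_mem_W) x_mem_W
    (by
      funext j
      simp only [Pi.sub_apply, Pi.smul_apply, Dom.aeval_pi_apply, smul_eq_mul, one_mul]
      rw [h0]
      have h1 := O.rel (p j)
      simp only [hu, hX, hY, pow_one]
      rw [← h1]; ring)
    (fun k => by
      funext j
      simp only [Pi.sub_apply, Pi.smul_apply, Dom.aeval_pi_apply, smul_eq_mul, one_mul]
      have h1 := O.rel ((O.σ ^ (k + 1)) (p j))
      simp only [hu]
      rw [← h1]
      have h2 : O.σ ((O.σ ^ (k + 1)) (p j)) = (O.σ ^ (k + 2)) (p j) := by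
        rw [pow_succ' O.σ (k + 1)]; rfl
      have h3 : O.σ⁻¹ ((O.σ ^ (k + 1)) (p j)) = (O.σ ^ k) (p j) := by
        rw [pow_succ' O.σ k]
        exact O.σ.symm_apply_apply _
      rw [h2, h3]; ring) k
  rw [h0] at this
  exact this

/-- Leading forms of the backward iterates on a family of points. -/
theorem top_b {d : ℕ} (hd : 2 ≤ d) {ζ : Fin d → K} {δ : K} (hδ : δ ≠ 0) {ι : Type*}
    (O : Orb ζ δ ι) {N : ℕ} (p : Fin N → ι) (k : ℕ) :
    IsTop K (fun j => O.y (O.σ⁻¹ (p j))) (fun j => O.y (p j)) (d ^ k)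
      (fun j => O.y ((O.σ⁻¹ ^ (k + 1)) (p j)))
      ((δ⁻¹ : K) ^ gexp d k • (fun j => O.y (O.σ⁻¹ (p j))) ^ (d ^ k)) := by
  obtain ⟨hmon, hdeg⟩ := nf_monic hd ζ δ
  set X : Fin N → K := fun j => O.y (O.σ⁻¹ (p j)) with hX
  set Y : Fin N → K := fun j => O.y (p j) with hY
  set b : ℕ → (Fin N → K) := fun k j => O.y ((O.σ⁻¹ ^ (k + 1)) (p j)) with hb
  have h0 : b 0 = X := by funext j; simp [hb, hX]
  have := top_iter (K := K) (x := X) (y := Y) hd hmon hdeg δ⁻¹ δ⁻¹ b Y
    (by rw [h0]; exact x_mem_W) y_mem_W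
    (by
      funext j
      simp only [Pi.sub_apply, Pi.smul_apply, Dom.aeval_pi_apply, smul_eq_mul]
      rw [h0]
      have h1 := O.rel (O.σ⁻¹ (p j))
      have h4 : O.σ (O.σ⁻¹ (p j)) = (p j : ι) := O.σ.apply_symm_apply _
      rw [h4] at h1
      simp only [hb, hX, hY]
      rw [← h1]
      have h5 : (O.σ⁻¹ ^ (1 + 1)) (p j : ι) = O.σ⁻¹ (O.σ⁻¹ (p j)) := by
        rw [pow_succ, pow_one]; rfl
      rw [h5]
      field_simp
      ring)
    (fun k => by
      funext j
      simp only [Pi.sub_apply, Pi.smul_apply, Dom.aeval_pi_apply, smul_eq_mul]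
      have h1 := O.rel ((O.σ⁻¹ ^ (k + 2)) (p j))
      simp only [hb]
      rw [← h1]
      have h2 : O.σ ((O.σ⁻¹ ^ (k + 2)) (p j)) = (O.σ⁻¹ ^ (k + 1)) (p j) := by
        rw [pow_succ' O.σ⁻¹ (k + 1)]
        exact O.σ.apply_symm_apply _
      have h3 : O.σ⁻¹ ((O.σ⁻¹ ^ (k + 2)) (p j)) = (O.σ⁻¹ ^ (k + 2 + 1)) (p j) := by
        rw [pow_succ' O.σ⁻¹ (k + 2)]; rfl
      rw [h2, h3]
      field_simp
      ring) k
  rw [h0] at this
  exact this

/-- Leading form of a monic polynomial in one coordinate. -/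
theorem top_monic {A : Type*} [CommRing A] [Algebra K A] {x y z : A} (hz : z ∈ W K x y 2)
    {F : K[X]} {e : ℕ} (hF : F.Monic) (hFe : F.natDegree = e) :
    IsTop K x y e (aeval z F) (z ^ e) := by
  rcases Nat.eq_zero_or_pos e with he | he
  · have h1 : F = 1 := hF.natDegree_eq_zero.mp (hFe.trans he)
    rw [h1, he, map_one, pow_zero]
    exact IsTop.one
  · have h1 := (IsTop.refl (K := K) (x := x) (y := y) (m := 1) (g := z) hz).aeval le_rfl he hF hFe
    rw [mul_one] at h1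
    exact h1

/-- The digit sum is at most `(d - 1) L`. -/
theorem le_dynE {d : ℕ} (hd : 1 ≤ d) (L i : ℕ) (hi : i < d ^ L) :
    i ≤ (d - 1) * dynE d L i + (d - 1) * L := by
  have h1 := sum_digits d i L
  rw [Nat.mod_eq_of_lt hi] at h1
  calc i = ∑ k ∈ Finset.range L, (i / d ^ k % d) * d ^ k := h1.symm
    _ = ∑ k ∈ Finset.range L, ((d - 1) * ((i / d ^ k % d) * gexp d k) + i / d ^ k % d) := by
        refine Finset.sum_congr rfl fun k _ => ?_
        rw [← gexp_eq hd k]; ring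
    _ = (d - 1) * dynE d L i + ∑ k ∈ Finset.range L, i / d ^ k % d := by
        rw [Finset.sum_add_distrib, ← Finset.mul_sum, dynE]
    _ ≤ (d - 1) * dynE d L i + ∑ _k ∈ Finset.range L, (d - 1) := by
        apply Nat.add_le_add_left
        refine Finset.sum_le_sum fun k _ => ?_
        have := Nat.mod_lt (i / d ^ k) (by omega : d > 0)
        omega
    _ = (d - 1) * dynE d L i + (d - 1) * L := by
        rw [Finset.sum_const, Finset.card_range, smul_eq_mul, mul_comm L]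

/-- The determinant of the dynamical monomials. -/
noncomputable def deteE {d : ℕ} {ζ : Fin d → K} {δ : K} {ι : Type*} (O : Orb ζ δ ι) (L : ℕ) {N : ℕ}
    (p : Fin N → ι) : K :=
  (Matrix.of (fun (t : Fin N) (j : Fin N) => ee O L (enum t) (p j))).det

/-- The local estimate when the Jacobian is at most one. -/
theorem loc_y {d : ℕ} (hd : 2 ≤ d) {ζ : Fin d → K} {δ : K} (hδ : δ ≠ 0) {ι : Type*}
    (O : Orb ζ δ ι) (L : ℕ) {N : ℕ} (p : Fin N → ι)
    (hL : ∀ t : Fin N, (enum t).1 < d ^ L ∧ (enum t).2 < d ^ L)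
    (v : AbsoluteValue K ℝ) (hv : IsNonarchimedean v) {M θ : ℝ} (hM : 1 ≤ M)
    (hy : ∀ P, v (O.y P) ≤ M) (g : K[X]) (hg : g.Monic) {m : ℕ} (hm : g.natDegree = m)
    (hm1 : 1 ≤ m) (hmd : m ≤ d) (hgv : ∀ P, v (g.eval (O.y P)) ≤ θ) :
    v (deteE O L p) ≤ M ^ ((2 * (d - 1) * L + d) * N) * θ ^ (∑ t : Fin N, (enum t).2 / m) := by
  set X : Fin N → K := fun j => O.y (O.σ⁻¹ (p j)) with hX
  set Y : Fin N → K := fun j => O.y (p j) with hY
  set u : ℕ → (Fin N → K) := fun k j => O.y ((O.σ ^ k) (p j)) with hu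
  set b : ℕ → (Fin N → K) := fun k j => O.y ((O.σ⁻¹ ^ (k + 1)) (p j)) with hb
  have hM0 : 0 ≤ M := by linarith
  set q : Fin N → (Fin N → K) := fun t =>
    dynP d b L (enum t).1 * aeval Y (gpow g m (enum t).2) with hq
  set P : Fin N → (Fin N → K) := fun t => dynP d b L (enum t).1 * dynP d u L (enum t).2 with hP
  have h1 := det_cmp X Y P q (fun t => (δ⁻¹) ^ dynE d L (enum t).1)
    (fun t => (δ⁻¹) ^ dynE d L (enum t).1)
    (fun t => by
      have h1 := (top_dynP b X δ⁻¹ (top_b hd hδ O p) L (enum t).1 (hL t).1).mul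
        (top_dynP u Y 1 (top_u hd O p) L (enum t).2 (hL t).2)
      rw [one_pow, one_smul, smul_mul_assoc] at h1
      exact h1)
    (fun t => by
      have h1 := (top_dynP b X δ⁻¹ (top_b hd hδ O p) L (enum t).1 (hL t).1).mul
        (top_monic (K := K) (x := X) (y := Y) (z := Y) y_mem_W (gpow_monic hg m (enum t).2)
          (gpow_natDegree hg hm (enum t).2))
      rw [smul_mul_assoc] at h1
      exact h1)
  have h2 : (∏ t : Fin N, (δ⁻¹) ^ dynE d L (enum t).1) ≠ 0 :=
    Finset.prod_ne_zero_iff.mpr fun t _ => pow_ne_zero _ (inv_ne_zero hδ)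
  have h3 : (Matrix.of P).det = (Matrix.of q).det := mul_left_cancel₀ h2 h1
  have h4 : deteE O L p = (Matrix.of P).det := by
    rw [deteE]
    congr 1
    ext t j
    simp only [Matrix.of_apply, hP, Pi.mul_apply, ee, hb, hu]
    simp only [dynP, Finset.prod_apply, Pi.pow_apply]
  rw [h4, h3]
  have hθ0 : ∀ P : ι, 0 ≤ θ := fun P => (v.nonneg _).trans (hgv P)
  refine (det_le_nonarch v hv (Matrix.of q)
    (fun t => M ^ (2 * (d - 1) * L + d) * θ ^ ((enum t).2 / m)) (fun t j => ?_)).trans ?_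
  · have hθ := hθ0 (p j)
    simp only [Matrix.of_apply, hq, Pi.mul_apply]
    rw [v.map_mul, Dom.aeval_pi_apply, gpow, eval_mul, eval_pow, eval_pow, eval_X, v.map_mul, v.map_pow,
      v.map_pow]
    have h5 : v (dynP d b L (enum t).1 j) ≤ M ^ ((d - 1) * L) :=
      dynP_apply_le (by omega) b v hM (fun k j => hy _) _ _
    have h6 : v (g.eval (Y j)) ^ ((enum t).2 / m) ≤ θ ^ ((enum t).2 / m) :=
      pow_le_pow_left₀ (v.nonneg _) (hgv _) _
    have h7 : v (Y j) ^ ((enum t).2 % m) ≤ M ^ d := by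
      calc v (Y j) ^ ((enum t).2 % m) ≤ M ^ ((enum t).2 % m) :=
            pow_le_pow_left₀ (v.nonneg _) (hy _) _
        _ ≤ M ^ d := pow_le_pow_right₀ hM ((Nat.mod_lt _ hm1).le.trans hmd)
    calc v (dynP d b L (enum t).1 j) * (v (g.eval (Y j)) ^ ((enum t).2 / m) *
          v (Y j) ^ ((enum t).2 % m))
        ≤ M ^ ((d - 1) * L) * (θ ^ ((enum t).2 / m) * M ^ d) :=
          mul_le_mul h5 (mul_le_mul h6 h7 (pow_nonneg (v.nonneg _) _) (pow_nonneg hθ _))
            (mul_nonneg (pow_nonneg (v.nonneg _) _) (pow_nonneg (v.nonneg _) _))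
            (pow_nonneg hM0 _)
      _ = M ^ ((d - 1) * L + d) * θ ^ ((enum t).2 / m) := by rw [pow_add]; ring
      _ ≤ M ^ (2 * (d - 1) * L + d) * θ ^ ((enum t).2 / m) := by
          refine mul_le_mul_of_nonneg_right (pow_le_pow_right₀ hM ?_) (pow_nonneg hθ _)
          have : (d - 1) * L ≤ 2 * (d - 1) * L := by
            rw [mul_assoc]; omega
          omega
  · rw [Finset.prod_mul_distrib, Finset.prod_const, Finset.card_univ, Fintype.card_fin, ← pow_mul,
      Finset.prod_pow_eq_pow_sum]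

/-- The local estimate when the Jacobian is at least one. -/
theorem loc_x {d : ℕ} (hd : 2 ≤ d) {ζ : Fin d → K} {δ μ : K} (hδ : δ ≠ 0)
    (hμ : μ ^ (d - 1) = δ) {ι : Type*}
    (O : Orb ζ δ ι) (L : ℕ) {N : ℕ} (p : Fin N → ι)
    (hL : ∀ t : Fin N, (enum t).1 < d ^ L ∧ (enum t).2 < d ^ L)
    (v : AbsoluteValue K ℝ) (hv : IsNonarchimedean v) {M θ : ℝ} (hμ1 : 1 ≤ v μ) (hM : v μ ≤ M)
    (hy : ∀ P, v (O.y P) ≤ M) (g : K[X]) (hg : g.Monic) {m : ℕ} (hm : g.natDegree = m)
    (hm1 : 1 ≤ m) (hmd : m ≤ d) (hθ : 0 ≤ θ) (hgv : ∀ P, v (g.eval (O.y P)) ≤ v μ ^ m * θ) :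
    v (deteE O L p) ≤ M ^ ((2 * (d - 1) * L + d) * N) * θ ^ (∑ t : Fin N, (enum t).1 / m) := by
  set X : Fin N → K := fun j => O.y (O.σ⁻¹ (p j)) with hX
  set Y : Fin N → K := fun j => O.y (p j) with hY
  set u : ℕ → (Fin N → K) := fun k j => O.y ((O.σ ^ k) (p j)) with hu
  set b : ℕ → (Fin N → K) := fun k j => O.y ((O.σ⁻¹ ^ (k + 1)) (p j)) with hb
  have hM1 : 1 ≤ M := hμ1.trans hM
  have hM0 : 0 ≤ M := by linarith
  have hμ0 : 0 < v μ := by linarith
  set q : Fin N → (Fin N → K) := fun t =>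
    aeval X (gpow g m (enum t).1) * dynP d u L (enum t).2 with hq
  set P : Fin N → (Fin N → K) := fun t => dynP d b L (enum t).1 * dynP d u L (enum t).2 with hP
  have h1 := det_cmp X Y P q (fun t => (δ⁻¹) ^ dynE d L (enum t).1) (fun _ => 1)
    (fun t => by
      have h1 := (top_dynP b X δ⁻¹ (top_b hd hδ O p) L (enum t).1 (hL t).1).mul
        (top_dynP u Y 1 (top_u hd O p) L (enum t).2 (hL t).2)
      rw [one_pow, one_smul, smul_mul_assoc] at h1
      exact h1)
    (fun t => by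
      have h1 := (top_monic (K := K) (x := X) (y := Y) (z := X) x_mem_W
        (gpow_monic hg m (enum t).1) (gpow_natDegree hg hm (enum t).1)).mul
        (top_dynP u Y 1 (top_u hd O p) L (enum t).2 (hL t).2)
      rw [one_pow, one_smul] at h1
      rw [one_smul]
      exact h1)
  rw [Finset.prod_const_one, one_mul] at h1
  have h4 : deteE O L p = (Matrix.of P).det := by
    rw [deteE]
    congr 1
    ext t j
    simp only [Matrix.of_apply, hP, Pi.mul_apply, ee, hb, hu]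
    simp only [dynP, Finset.prod_apply, Pi.pow_apply]
  rw [h4, h1, v.map_mul, map_prod]
  have h2 := det_le_nonarch v hv (Matrix.of q)
    (fun t => (v μ ^ m * θ) ^ ((enum t).1 / m) * M ^ ((d - 1) * L + d)) (fun t j => by
      simp only [Matrix.of_apply, hq, Pi.mul_apply]
      rw [v.map_mul, Dom.aeval_pi_apply, gpow, eval_mul, eval_pow, eval_pow, eval_X, v.map_mul,
        v.map_pow, v.map_pow]
      have h5 : v (dynP d u L (enum t).2 j) ≤ M ^ ((d - 1) * L) :=
        dynP_apply_le (by omega) u v hM1 (fun k j => hy _) _ _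
      have h6 : v (g.eval (X j)) ^ ((enum t).1 / m) ≤ (v μ ^ m * θ) ^ ((enum t).1 / m) :=
        pow_le_pow_left₀ (v.nonneg _) (hgv _) _
      have h7 : v (X j) ^ ((enum t).1 % m) ≤ M ^ d := by
        calc v (X j) ^ ((enum t).1 % m) ≤ M ^ ((enum t).1 % m) :=
              pow_le_pow_left₀ (v.nonneg _) (hy _) _
          _ ≤ M ^ d := pow_le_pow_right₀ hM1 ((Nat.mod_lt _ hm1).le.trans hmd)
      calc v (g.eval (X j)) ^ ((enum t).1 / m) * v (X j) ^ ((enum t).1 % m) *
            v (dynP d u L (enum t).2 j)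
          ≤ (v μ ^ m * θ) ^ ((enum t).1 / m) * M ^ d * M ^ ((d - 1) * L) :=
            mul_le_mul (mul_le_mul h6 h7 (pow_nonneg (v.nonneg _) _) (by positivity)) h5
              (v.nonneg _) (by positivity)
        _ = (v μ ^ m * θ) ^ ((enum t).1 / m) * M ^ ((d - 1) * L + d) := by rw [pow_add]; ring)
  calc (∏ t : Fin N, v ((δ⁻¹) ^ dynE d L (enum t).1)) * v (Matrix.of q).det
      ≤ (∏ t : Fin N, v ((δ⁻¹) ^ dynE d L (enum t).1)) *
        ∏ t : Fin N, ((v μ ^ m * θ) ^ ((enum t).1 / m) * M ^ ((d - 1) * L + d)) :=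
        mul_le_mul_of_nonneg_left h2 (Finset.prod_nonneg fun _ _ => v.nonneg _)
    _ = ∏ t : Fin N, (v ((δ⁻¹) ^ dynE d L (enum t).1) *
        ((v μ ^ m * θ) ^ ((enum t).1 / m) * M ^ ((d - 1) * L + d))) :=
        (Finset.prod_mul_distrib).symm
    _ ≤ ∏ t : Fin N, (M ^ (2 * (d - 1) * L + d) * θ ^ ((enum t).1 / m)) := by
        refine Finset.prod_le_prod (fun t _ => mul_nonneg (v.nonneg _) (by positivity))
          fun t _ => ?_
        have e1 : v ((δ⁻¹) ^ dynE d L (enum t).1) = (v μ ^ ((d - 1) * dynE d L (enum t).1))⁻¹ := by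
          rw [map_pow, map_inv₀, ← hμ, map_pow, inv_pow, ← pow_mul]
        have e2 : (v μ ^ m * θ) ^ ((enum t).1 / m) ≤
            v μ ^ ((d - 1) * dynE d L (enum t).1) * M ^ ((d - 1) * L) * θ ^ ((enum t).1 / m) := by
          rw [mul_pow, ← pow_mul]
          refine mul_le_mul_of_nonneg_right ?_ (by positivity)
          calc v μ ^ (m * ((enum t).1 / m)) ≤ v μ ^ ((d - 1) * dynE d L (enum t).1 + (d - 1) * L) :=
                pow_le_pow_right₀ hμ1 ((Nat.mul_div_le _ _).trans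
                  (le_dynE (by omega) L _ (hL t).1))
            _ = v μ ^ ((d - 1) * dynE d L (enum t).1) * v μ ^ ((d - 1) * L) := pow_add _ _ _
            _ ≤ _ := mul_le_mul_of_nonneg_left (pow_le_pow_left₀ hμ0.le hM _) (by positivity)
        have e3 : 0 < v μ ^ ((d - 1) * dynE d L (enum t).1) := by positivity
        rw [e1]
        calc (v μ ^ ((d - 1) * dynE d L (enum t).1))⁻¹ *
              ((v μ ^ m * θ) ^ ((enum t).1 / m) * M ^ ((d - 1) * L + d))
            ≤ (v μ ^ ((d - 1) * dynE d L (enum t).1))⁻¹ *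
              ((v μ ^ ((d - 1) * dynE d L (enum t).1) * M ^ ((d - 1) * L) *
                θ ^ ((enum t).1 / m)) * M ^ ((d - 1) * L + d)) :=
              mul_le_mul_of_nonneg_left (mul_le_mul_of_nonneg_right e2 (by positivity))
                (by positivity)
          _ = (v μ ^ ((d - 1) * dynE d L (enum t).1))⁻¹ * v μ ^ ((d - 1) * dynE d L (enum t).1) *
              (M ^ ((d - 1) * L) * M ^ ((d - 1) * L + d) * θ ^ ((enum t).1 / m)) := by ring
          _ = M ^ ((d - 1) * L + ((d - 1) * L + d)) * θ ^ ((enum t).1 / m) := by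
              rw [inv_mul_cancel₀ e3.ne', one_mul, ← pow_add]
          _ = M ^ (2 * (d - 1) * L + d) * θ ^ ((enum t).1 / m) := by
              congr 2; ring
    _ = M ^ ((2 * (d - 1) * L + d) * N) * θ ^ (∑ t : Fin N, (enum t).1 / m) := by
        rw [Finset.prod_mul_distrib, Finset.prod_const, Finset.card_univ, Fintype.card_fin,
          ← pow_mul, Finset.prod_pow_eq_pow_sum]

end Pool.Agent.H.MP_0e6b5f_nt.Cap
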