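import Pool.Agent.H.MP_0e6b5f_nt.Dom.Local

/-!
# A conservation law for cycles, and the size of real periodic points

`sum_prod_zero`: over a finite invariant set the sum of `∏ (y - ζ i)` is zero. If the points are real
for an embedding at which the polynomial is real, and the degree is even, then all points are within
`9 d (3 N) ^ (1 / d) Δ` of the fixed points, `Δ` the diameter of the set of fixed points, `N` the number
of points.
-/

namespace Pool.Agent.H.MP_0e6b5f_nt.Cap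

open Pool.Agent.H.MP_0e6b5f_nt.Dom
open Polynomial ComplexConjugate

variable {K : Type*} [Field K]

/-- The conservation law. -/
theorem sum_prod_zero {d : ℕ} {ζ : Fin d → K} {δ : K} {ι : Type*} [Fintype ι] (O : Orb ζ δ ι) :
    ∑ P, ∏ i, (O.y P - ζ i) = 0 := by
  have h1 : ∑ P, O.y (O.σ P) = ∑ P, O.y P := Equiv.sum_comp O.σ O.y
  have h2 : ∑ P, O.y (O.σ⁻¹ P) = ∑ P, O.y P := Equiv.sum_comp (O.σ⁻¹) O.y
  have h3 : ∑ P, (O.y (O.σ P) + δ * O.y (O.σ⁻¹ P)) =
      ∑ P, ((1 + δ) * O.y P + ∏ i, (O.y P - ζ i)) := by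
    refine Finset.sum_congr rfl fun P _ => ?_
    rw [O.rel P, nf]
    simp [eval_prod]
  rw [Finset.sum_add_distrib, Finset.sum_add_distrib, ← Finset.mul_sum, ← Finset.mul_sum, h1, h2]
    at h3
  linear_combination -h3

theorem conj_root {d : ℕ} (z : Fin d → ℂ) (hre : ∀ x : ℝ, (∏ i, ((x : ℂ) - z i)).im = 0)
    (i : Fin d) : ∃ j, z j = conj (z i) := by
  have hinf : (Set.range (fun x : ℝ => (x : ℂ))).Infinite :=
    Set.infinite_range_of_injective Complex.ofReal_injective
  have h1 : (∏ i, (X - C (z i)) : ℂ[X]) = ∏ i, (X - C (conj (z i))) := by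
    refine eq_of_infinite_eval_eq _ _ (hinf.mono ?_)
    rintro _ ⟨x, rfl⟩
    rw [Set.mem_ofPred_eq, eval_prod, eval_prod]
    simp only [eval_sub, eval_X, eval_C]
    have h2 : ∏ i, ((x : ℂ) - conj (z i)) = conj (∏ i, ((x : ℂ) - z i)) := by
      rw [map_prod]
      refine Finset.prod_congr rfl fun j _ => ?_
      rw [map_sub, Complex.conj_ofReal]
    rw [h2]
    exact (Complex.conj_eq_iff_im.2 (hre x)).symm
  have h2 := congrArg (eval (conj (z i))) h1
  rw [eval_prod, eval_prod] at h2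
  simp only [eval_sub, eval_X, eval_C] at h2
  have h3 : ∏ j, (conj (z i) - conj (z j)) = 0 :=
    Finset.prod_eq_zero (Finset.mem_univ i) (sub_self _)
  rw [h3, Finset.prod_eq_zero_iff] at h2
  obtain ⟨j, -, hj⟩ := h2
  exact ⟨j, (sub_eq_zero.1 hj).symm⟩

theorem prod_far {d : ℕ} (hd : Even d) {z : Fin d → ℂ} {a B x : ℝ}
    (hz : ∀ i, ‖z i - a‖ ≤ B) (hx : 2 * d * B ≤ |x - a|) (hxa : x ≠ a) :
    7 / 20 * |x - a| ^ d ≤ (∏ i, ((x : ℂ) - z i)).re := by
  have hxa' : 0 < |x - a| := abs_pos.2 (sub_ne_zero.2 hxa)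
  have hc : ((x : ℂ) - a) ≠ 0 := by
    rw [← Complex.ofReal_sub]
    exact_mod_cast sub_ne_zero.2 hxa
  set ε : Fin d → ℂ := fun i => ((a : ℂ) - z i) / ((x : ℂ) - a) with hε
  have hnorm : ‖(x : ℂ) - a‖ = |x - a| := by
    rw [← Complex.ofReal_sub, Complex.norm_real, Real.norm_eq_abs]
  have hεn : ∀ i, ‖ε i‖ ≤ B / |x - a| := by
    intro i
    rw [hε]
    simp only
    rw [norm_div, hnorm, norm_sub_rev]
    exact div_le_div_of_nonneg_right (hz i) hxa'.le
  have hsum : ∑ i, ‖ε i‖ ≤ 1 / 2 := by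
    calc ∑ i, ‖ε i‖ ≤ ∑ _i : Fin d, B / |x - a| := Finset.sum_le_sum fun i _ => hεn i
      _ = d * B / |x - a| := by
          rw [Finset.sum_const, Finset.card_univ, Fintype.card_fin, nsmul_eq_mul]; ring
      _ ≤ 1 / 2 := by
          rw [div_le_div_iff₀ hxa' (by norm_num)]
          linarith
  have h1 := Finset.norm_prod_one_add_sub_one_le Finset.univ ε
  have h2 : Real.exp (∑ i, ‖ε i‖) - 1 ≤ 13 / 20 := by
    have h3 : Real.exp (∑ i, ‖ε i‖) ≤ Real.exp (1 / 2) := Real.exp_le_exp.2 hsum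
    have h4 : Real.exp (1 / 2) ^ 2 < (33 / 20) ^ 2 := by
      rw [← Real.exp_nat_mul]
      norm_num
      have := Real.exp_one_lt_d9
      linarith
    have h5 : Real.exp (1 / 2) < 33 / 20 := lt_of_pow_lt_pow_left₀ 2 (by norm_num) h4
    linarith
  have h3 : 7 / 20 ≤ (∏ i, (1 + ε i)).re := by
    have h4 : |((∏ i, (1 + ε i)) - 1).re| ≤ 13 / 20 := (Complex.abs_re_le_norm _).trans (h1.trans h2)
    rw [Complex.sub_re, Complex.one_re] at h4
    linarith [(abs_le.1 h4).1]
  have h4 : ∏ i, ((x : ℂ) - z i) = (((x - a) ^ d : ℝ) : ℂ) * ∏ i, (1 + ε i) := by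
    have h5 : ∀ i, (x : ℂ) - z i = ((x : ℂ) - a) * (1 + ε i) := by
      intro i
      rw [hε]
      field_simp
      ring
    rw [Finset.prod_congr rfl fun i _ => h5 i, Finset.prod_mul_distrib, Finset.prod_const,
      Finset.card_univ, Fintype.card_fin]
    push_cast
    rfl
  have h6 : |x - a| ^ d = (x - a) ^ d := hd.pow_abs _
  rw [h4, Complex.re_ofReal_mul, ← h6]
  nlinarith [pow_pos hxa' d]

theorem prod_near {d : ℕ} {z : Fin d → ℂ} {a B x : ℝ}
    (hz : ∀ i, ‖z i - a‖ ≤ B) {T : ℝ} (hx : |x - a| ≤ T) :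
    -(T + B) ^ d ≤ (∏ i, ((x : ℂ) - z i)).re := by
  have h1 : ‖∏ i, ((x : ℂ) - z i)‖ ≤ (T + B) ^ d := by
    rw [norm_prod]
    calc ∏ i, ‖(x : ℂ) - z i‖ ≤ ∏ _i : Fin d, (T + B) := by
          refine Finset.prod_le_prod (fun i _ => norm_nonneg _) fun i _ => ?_
          have h2 : (x : ℂ) - z i = ((x : ℂ) - a) + (a - z i) := by ring
          rw [h2]
          refine (norm_add_le _ _).trans (add_le_add ?_ ?_)
          · rw [← Complex.ofReal_sub, Complex.norm_real, Real.norm_eq_abs]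
            exact hx
          · rw [norm_sub_rev]
            exact hz i
      _ = (T + B) ^ d := by
          rw [Finset.prod_const, Finset.card_univ, Fintype.card_fin]
  have h2 := Complex.abs_re_le_norm (∏ i, ((x : ℂ) - z i))
  linarith [(abs_le.1 (h2.trans h1)).1]

/-- Real periodic points are near the fixed points. -/
theorem real_mom {d : ℕ} (hd : Even d) (hd2 : 2 ≤ d) {ζ : Fin d → K} {δ : K} {ι : Type*}
    [Fintype ι] (O : Orb ζ δ ι) (φ : K →+* ℂ) (hy : ∀ P, (φ (O.y P)).im = 0)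
    (hre : ∀ x : ℝ, (∏ i, ((x : ℂ) - φ (ζ i))).im = 0) {Δ : ℝ}
    (hΔ : ∀ i j, ‖φ (ζ i) - φ (ζ j)‖ ≤ Δ) (P : ι) (i : Fin d) :
    ‖φ (O.y P) - φ (ζ i)‖ ^ d ≤ 3 * Fintype.card ι * (9 * d * Δ) ^ d := by
  classical
  set z : Fin d → ℂ := fun j => φ (ζ j) with hz
  set x : ι → ℝ := fun Q => (φ (O.y Q)).re with hx
  have hxy : ∀ Q, φ (O.y Q) = (x Q : ℂ) := fun Q => by
    apply Complex.ext
    · rfl
    · rw [hy Q, Complex.ofReal_im]
  have hΔ0 : 0 ≤ Δ := (norm_nonneg _).trans (hΔ i i)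
  set a : ℝ := (z i).re with ha
  set B : ℝ := 3 / 2 * Δ with hB
  have hB0 : 0 ≤ B := by positivity
  have hzi : ‖z i - a‖ ≤ Δ / 2 := by
    obtain ⟨j, hj⟩ := conj_root z hre i
    have h1 := hΔ i j
    have h2 : z i - z j = 2 * (z i - a) := by
      rw [hj, ha]
      apply Complex.ext
      · simp
      · simp; ring
    have h1' : ‖z i - z j‖ ≤ Δ := h1
    rw [h2, norm_mul, Complex.norm_ofNat] at h1'
    linarith
  have hzB : ∀ j, ‖z j - a‖ ≤ B := by
    intro j
    have h1 : z j - a = (z j - z i) + (z i - a) := by ring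
    rw [h1, hB]
    refine (norm_add_le _ _).trans ?_
    have h2 : ‖z j - z i‖ ≤ Δ := hΔ j i
    linarith
  have hsum : ∑ Q, (∏ j, ((x Q : ℂ) - z j)).re = 0 := by
    have h1 := congrArg φ (sum_prod_zero O)
    rw [map_sum, map_zero] at h1
    have h2 : ∀ Q, φ (∏ j, (O.y Q - ζ j)) = ∏ j, ((x Q : ℂ) - z j) := fun Q => by
      rw [map_prod]
      refine Finset.prod_congr rfl fun j _ => ?_
      rw [map_sub, hxy]
    simp_rw [h2] at h1
    have h3 := congrArg Complex.re h1
    rw [Complex.re_sum, Complex.zero_re] at h3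
    exact h3
  have hd1 : (1 : ℝ) ≤ d := by exact_mod_cast (by omega : 1 ≤ d)
  set M : ℝ := (2 * d * B + B) ^ d with hM
  have hM0 : 0 ≤ M := by positivity
  have hterm : ∀ Q, -M ≤ (∏ j, ((x Q : ℂ) - z j)).re := by
    intro Q
    by_cases h1 : |x Q - a| ≤ 2 * d * B
    · exact prod_near hzB h1
    · have h2 : 2 * d * B < |x Q - a| := not_le.1 h1
      have h3 : x Q ≠ a := by
        rintro h3
        rw [h3, sub_self, abs_zero] at h2
        have : 0 ≤ 2 * d * B := by positivity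
        linarith
      have h4 := prod_far hd hzB h2.le h3
      have h5 : 0 ≤ |x Q - a| ^ d := by positivity
      linarith
  have hN : (1 : ℝ) ≤ Fintype.card ι := by
    have : 0 < Fintype.card ι := Fintype.card_pos_iff.2 ⟨P⟩
    exact_mod_cast this
  have hmain : |x P - a| ^ d ≤ 3 * Fintype.card ι * M := by
    by_cases h1 : |x P - a| ≤ 2 * d * B
    · have h2 : |x P - a| ^ d ≤ M := by
        rw [hM]
        exact pow_le_pow_left₀ (abs_nonneg _) (by linarith) d
      nlinarith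
    · have h2 : 2 * d * B < |x P - a| := not_le.1 h1
      have h3 : x P ≠ a := by
        rintro h3
        rw [h3, sub_self, abs_zero] at h2
        have : 0 ≤ 2 * d * B := by positivity
        linarith
      have h4 := prod_far hd hzB h2.le h3
      have h5 : ∑ Q ∈ Finset.univ.erase P, (-M) ≤
          ∑ Q ∈ Finset.univ.erase P, (∏ j, ((x Q : ℂ) - z j)).re :=
        Finset.sum_le_sum fun Q _ => hterm Q
      have h6 := Finset.sum_erase_add Finset.univ (fun Q => (∏ j, ((x Q : ℂ) - z j)).re)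
        (Finset.mem_univ P)
      rw [hsum] at h6
      rw [Finset.sum_const, Finset.card_erase_of_mem (Finset.mem_univ P), Finset.card_univ,
        nsmul_eq_mul] at h5
      have h7 : ((Fintype.card ι - 1 : ℕ) : ℝ) ≤ Fintype.card ι := by exact_mod_cast Nat.sub_le _ _
      nlinarith
  have hMle : M ≤ (9 / 2 * d * Δ) ^ d := by
    rw [hM, hB]
    refine pow_le_pow_left₀ (by positivity) ?_ d
    nlinarith
  set N : ℝ := (Fintype.card ι : ℝ) with hNdef
  set u : ℝ := |x P - a| with hu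
  have hu0 : 0 ≤ u := abs_nonneg _
  have h1 : ‖φ (O.y P) - φ (ζ i)‖ ≤ u + Δ / 2 := by
    have h2 : φ (O.y P) - φ (ζ i) = ((x P : ℂ) - a) - (z i - a) := by rw [hxy P]; ring
    rw [h2]
    refine (norm_sub_le _ _).trans (add_le_add ?_ hzi)
    rw [← Complex.ofReal_sub, Complex.norm_real, Real.norm_eq_abs]
  have h2 : u ^ d ≤ 3 * N * (9 / 2 * d * Δ) ^ d :=
    hmain.trans (mul_le_mul_of_nonneg_left hMle (by positivity))
  calc ‖φ (O.y P) - φ (ζ i)‖ ^ d ≤ (u + Δ / 2) ^ d := pow_le_pow_left₀ (norm_nonneg _) h1 d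
    _ ≤ (2 * max u (Δ / 2)) ^ d := by
        refine pow_le_pow_left₀ (by positivity) ?_ d
        linarith [le_max_left u (Δ / 2), le_max_right u (Δ / 2)]
    _ = 2 ^ d * (max u (Δ / 2)) ^ d := mul_pow _ _ _
    _ ≤ 2 ^ d * (3 * N * (9 / 2 * d * Δ) ^ d) := by
        refine mul_le_mul_of_nonneg_left ?_ (by positivity)
        rcases le_total u (Δ / 2) with h3 | h3
        · rw [max_eq_right h3]
          calc (Δ / 2) ^ d ≤ (9 / 2 * d * Δ) ^ d := by
                refine pow_le_pow_left₀ (by positivity) ?_ d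
                nlinarith
            _ ≤ 3 * N * (9 / 2 * d * Δ) ^ d := by
                have : 0 ≤ (9 / 2 * d * Δ) ^ d := by positivity
                nlinarith
        · rw [max_eq_left h3]
          exact h2
    _ = 3 * N * (9 * d * Δ) ^ d := by
        have : (9 * d * Δ) ^ d = 2 ^ d * (9 / 2 * d * Δ) ^ d := by
          rw [← mul_pow]; congr 1; ring
        rw [this]; ring

end Pool.Agent.H.MP_0e6b5f_nt.Cap
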